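import Mathlib

/-!
Lindemann's theorem: the number `π` is transcendental.
-/

namespace Pool.Agent.Lib.PiTransc

open Polynomial Finset Filter
open scoped Nat

/-- A Galois-stable relation `q + ∑ exp (β i) = 0` with `q` a positive integer and nonzero algebraic
exponents is impossible. -/
theorem no_relation {K ι : Type*} [Field K] [CharZero K] [Algebra.IsAlgebraic ℚ K] (ψ : K →+* ℂ)
    (T : Finset ι) (β : ι → K) (hβ : ∀ i ∈ T, β i ≠ 0)
    (hrat : ∀ g : ℤ[X], ∃ r : ℚ, algebraMap ℚ K r = ∑ i ∈ T, aeval (β i) g) (q : ℕ) (hq : 0 < q) :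
    (q : ℂ) + ∑ i ∈ T, Complex.exp (ψ (β i)) ≠ 0 := by
  classical
  intro hrel
  have halg : Algebra.IsAlgebraic ℤ K :=
    have := IsLocalization.isAlgebraic ℚ (nonZeroDivisors ℤ)
    Algebra.IsAlgebraic.trans ℤ ℚ K
  have h1 : ∀ i, ∃ f : ℤ[X], i ∈ T → f.coeff 0 ≠ 0 ∧ aeval (β i) f = 0 := by
    intro i
    by_cases hi : i ∈ T
    · obtain ⟨f, hf⟩ := (halg.isAlgebraic (β i)).exists_nonzero_coeff_and_aeval_eq_zero
        (mem_nonZeroDivisors_of_ne_zero (hβ i hi))
      exact ⟨f, fun _ => hf⟩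
    · exact ⟨0, fun h => absurd h hi⟩
  choose F hF using h1
  set f : ℤ[X] := ∏ i ∈ T, F i with hf
  have hf0 : f.eval 0 ≠ 0 := by
    rw [hf, eval_prod]
    exact prod_ne_zero_iff.2 fun i hi => by rw [← coeff_zero_eq_eval_zero]; exact (hF i hi).1
  have hfne : f ≠ 0 := fun h => hf0 (by rw [h, eval_zero])
  have hψ : ∀ (x : K) (g : ℤ[X]), aeval (ψ x) g = ψ (aeval x g) := fun x g =>
    aeval_algHom_apply ψ.toIntAlgHom x g
  have hroot : ∀ i ∈ T, ψ (β i) ∈ f.aroots ℂ := by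
    intro i hi
    rw [mem_aroots, hψ]
    refine ⟨hfne, ?_⟩
    rw [hf, map_prod, prod_eq_zero hi (hF i hi).2, map_zero]
  obtain ⟨d, hd0, hd⟩ := Algebra.IsAlgebraic.exists_integral_multiples ℤ (T.image β)
  have hint : ∀ (g : ℤ[X]) (k : ℕ), g.natDegree ≤ k →
      ∃ m : ℤ, (m : K) = (d : K) ^ k * ∑ i ∈ T, aeval (β i) g := by
    intro g k hk
    obtain ⟨r, hr⟩ := hrat g
    have h2 : IsIntegral ℤ ((d : K) ^ k * ∑ i ∈ T, aeval (β i) g) := by
      rw [mul_sum]
      refine IsIntegral.sum _ fun i hi => ?_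
      rw [aeval_eq_sum_range' (Nat.lt_succ_of_le hk), mul_sum]
      refine IsIntegral.sum _ fun j hj => ?_
      have hj' : j ≤ k := Nat.lt_succ_iff.1 (mem_range.1 hj)
      have e : (d : K) ^ k * (g.coeff j • β i ^ j) =
          algebraMap ℤ K (d ^ (k - j) * g.coeff j) * (d • β i) ^ j := by
        obtain ⟨l, rfl⟩ := Nat.exists_eq_add_of_le hj'
        simp only [Nat.add_sub_cancel_left, zsmul_eq_mul, eq_intCast, Int.cast_mul, Int.cast_pow]
        ring
      rw [e]
      exact isIntegral_algebraMap.mul ((hd _ (mem_image_of_mem β hi)).pow _)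
    rw [← hr] at h2 ⊢
    have e : (d : K) ^ k * algebraMap ℚ K r = algebraMap ℚ K ((d : ℚ) ^ k * r) := by simp
    rw [e] at h2 ⊢
    obtain ⟨m, hm⟩ := IsIntegrallyClosed.isIntegral_iff.1
      ((isIntegral_algebraMap_iff (algebraMap ℚ K).injective).1 h2)
    exact ⟨m, by rw [← hm]; simp⟩
  obtain ⟨c, hc⟩ := LindemannWeierstrass.exp_polynomial_approx f hf0
  set C : ℝ := (|d| : ℝ) ^ f.natDegree * |c| with hC
  have hlim : Tendsto (fun n : ℕ => (T.card : ℝ) * (C * (C ^ n / n !))) atTop (nhds 0) := by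
    simpa using ((FloorSemiring.tendsto_pow_div_factorial_atTop C).const_mul C).const_mul
      (T.card : ℝ)
  obtain ⟨N, hN⟩ := eventually_atTop.1 (hlim.eventually (gt_mem_nhds zero_lt_one))
  obtain ⟨p, hp, hprime⟩ := Nat.exists_infinite_primes (N + (f.eval 0).natAbs + d.natAbs + q + 1)
  obtain ⟨n, hn, g, hg, happ⟩ := hc p (by omega) hprime
  obtain ⟨m, hm⟩ := hint g (p * f.natDegree) (hg.trans (Nat.sub_le _ _))
  have hm' : (m : ℂ) = (d : ℂ) ^ (p * f.natDegree) * ∑ i ∈ T, aeval (ψ (β i)) g := by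
    have := congrArg ψ hm
    simpa [hψ] using this
  have hpZ : Prime (p : ℤ) := Nat.prime_iff_prime_int.1 hprime
  have hne : d ^ (p * f.natDegree) * q * n + p * m ≠ 0 := by
    intro h
    have h3 : (p : ℤ) ∣ d ^ (p * f.natDegree) * q * n :=
      ⟨-m, by linear_combination h⟩
    rcases hpZ.dvd_or_dvd h3 with h4 | h4
    · rcases hpZ.dvd_or_dvd h4 with h5 | h5
      · have := Nat.le_of_dvd (Int.natAbs_pos.2 hd0) (Int.natCast_dvd.1 (hpZ.dvd_of_dvd_pow h5))
        omega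
      · have := Nat.le_of_dvd hq (Int.natCast_dvd_natCast.1 h5)
        omega
    · exact hn h4
  have h1 : (1 : ℝ) ≤ ‖((d ^ (p * f.natDegree) * q * n + p * m : ℤ) : ℂ)‖ := by
    rw [Complex.norm_intCast]
    exact_mod_cast Int.one_le_abs hne
  have e : ((d ^ (p * f.natDegree) * q * n + p * m : ℤ) : ℂ) = -((d : ℂ) ^ (p * f.natDegree) *
      ∑ i ∈ T, (n • Complex.exp (ψ (β i)) - p • aeval (ψ (β i)) g)) := by
    simp only [sum_sub_distrib, zsmul_eq_mul, nsmul_eq_mul, ← mul_sum]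
    push_cast
    rw [hm', eq_neg_of_add_eq_zero_right hrel]
    ring
  rw [e, norm_neg, norm_mul, norm_pow, Complex.norm_intCast] at h1
  have h2 : ‖∑ i ∈ T, (n • Complex.exp (ψ (β i)) - p • aeval (ψ (β i)) g)‖ ≤
      T.card * (|c| ^ p / (p - 1)!) := by
    refine (norm_sum_le _ _).trans ?_
    rw [← nsmul_eq_mul]
    refine sum_le_card_nsmul _ _ _ fun i hi => (happ (hroot i hi)).trans ?_
    rw [← abs_pow]
    gcongr
    exact le_abs_self _
  have h3 := hN (p - 1) (by omega)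
  obtain ⟨k, rfl⟩ : ∃ k, p = k + 1 := ⟨p - 1, by omega⟩
  rw [Nat.add_sub_cancel] at h2 h3
  have h4 := h1.trans (mul_le_mul_of_nonneg_left h2 (by positivity))
  refine absurd (h4.trans_eq ?_) (not_le.2 h3)
  rw [hC, mul_comm (k + 1), pow_mul]
  ring

theorem transcendental_pi : Transcendental ℚ Real.pi := by
  classical
  intro h
  have hI : IsAlgebraic ℚ Complex.I :=
    ⟨X ^ 2 + 1, fun h => by simpa using congrArg (eval 0) h, by simp⟩
  have hθ : IsAlgebraic ℚ ((Real.pi : ℂ) * Complex.I) :=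
    (h.algHom (Complex.ofRealAm.restrictScalars ℚ)).mul hI
  set K := algebraicClosure ℚ ℂ with hK
  have : IsAlgClosure ℚ K := algebraicClosure.isAlgClosure ℚ ℂ
  have : Algebra.IsAlgebraic ℚ K := algebraicClosure.isAlgebraic ℚ ℂ
  have : IsGalois ℚ K := ⟨⟩
  let θ : K := ⟨_, mem_algebraicClosure_iff.2 hθ⟩
  obtain ⟨P, hP, hPθ⟩ := Algebra.IsAlgebraic.isAlgebraic (R := ℚ) θ
  let R : Finset K := (P.aroots K).toFinset
  have hR : ∀ t, t ∈ R ↔ aeval t P = 0 := fun t => by simp [R, hP]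
  refine no_relation (K.val : K →+* ℂ) (R.powerset.filter fun S => ∑ t ∈ S, t ≠ 0)
    (fun S => ∑ t ∈ S, t) (fun S hS => (mem_filter.1 hS).2) (fun g => ?_)
    (R.powerset.filter fun S => ¬ ∑ t ∈ S, t ≠ 0).card
    (card_pos.2 ⟨∅, by simp⟩) ?_
  · refine (InfiniteGalois.mem_range_algebraMap_iff_fixed _).2 fun σ => ?_
    have hσ : ∀ S : Finset K, ∑ t ∈ σ.toEquiv.finsetCongr S, t = σ (∑ t ∈ S, t) := by
      intro S
      simp [Equiv.finsetCongr_apply, map_sum]
    rw [map_sum]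
    refine sum_equiv σ.toEquiv.finsetCongr (fun S => ?_) fun S _ => ?_
    · simp only [mem_filter, mem_powerset, hσ, ne_eq, map_eq_zero]
      refine and_congr_left fun _ => ?_
      simp only [Equiv.finsetCongr_apply, subset_iff, Finset.mem_map, hR, forall_exists_index, and_imp,
        forall_apply_eq_imp_iff₂, Equiv.coe_toEmbedding, AlgEquiv.toEquiv_eq_coe,
        EquivLike.coe_coe, aeval_algEquiv, AlgHom.coe_comp, Function.comp_apply,
        map_eq_zero]
    · rw [hσ]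
      exact (aeval_algHom_apply (σ : K →+* K).toIntAlgHom _ g).symm
  · have h0 : ∏ t ∈ R, (1 + Complex.exp (t : ℂ)) = 0 :=
      prod_eq_zero ((hR θ).2 hPθ) (by simp [θ, Complex.exp_pi_mul_I])
    rw [prod_one_add, ← sum_filter_not_add_sum_filter _ fun S => ∑ t ∈ S, t ≠ 0] at h0
    rw [← h0, card_eq_sum_ones, Nat.cast_sum]
    congr 1
    · refine sum_congr rfl fun S hS => ?_
      have := congrArg K.val (not_not.1 (mem_filter.1 hS).2)
      rw [map_sum, map_zero] at this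
      rw [← Complex.exp_sum, show ∑ t ∈ S, (t : ℂ) = 0 from this, Complex.exp_zero, Nat.cast_one]
    · refine sum_congr rfl fun S _ => ?_
      rw [← Complex.exp_sum, map_sum]
      rfl

end Pool.Agent.Lib.PiTransc
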